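import Pool.Agent.Q224.NR.Inv
import Pool.Agent.Q224.NR.MuSum
import Pool.Agent.Q224.NR.CoSm
import Pool.Agent.Q224.NR.Bohr
import Pool.Agent.Q224.NR.Good
import Pool.Agent.Q224.NR.Tri
import Pool.Agent.Q224.NR.Fibre
import Pool.Agent.Q224.NR.Cost
import Pool.Agent.Q224.NR.TW
import Pool.Agent.Q224.NR.Asym
import Pool.Agent.Q224.NR.Main
import Pool.Agent.Q224.NR.Final
import Pool.Agent.Q224.NR.Equi
import Pool.Agent.Q224.NR.WeilUV

/-!
# MP_29cad5_co: a power-type count of the P-patterns in sets of density (log p)^(-1/7)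
-/

set_option autoImplicit false

open Polynomial

namespace Pool.Agent.Results.MP_29cad5_co.LogPowerDensity

open Pool.Agent.Q224.NR in
/-- For a polynomial `P` of degree at least two, all large primes `p` and all sets `A` of residues
with at least `p / (log p)^(1/7)` elements there are at least `|A|^4 / (512 p^2)` pairs `x ≠ y` in
`A` with `y + P(x) - P(y)` in `A`. -/
theorem result :
    ∀ P : Polynomial ℤ, 2 ≤ P.natDegree →
      ∃ p₀ : ℕ, ∀ p : ℕ, p.Prime → p₀ ≤ p →
        ∀ A : Finset (ZMod p), (p : ℝ) / (Real.log p) ^ (1 / 7 : ℝ) ≤ (A.card : ℝ) →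
          (A.card : ℝ) ^ 4 / (512 * (p : ℝ) ^ 2) ≤
            (((A ×ˢ A).filter fun q => q.1 ≠ q.2 ∧
              q.2 + Polynomial.eval q.1 (Polynomial.map (Int.castRingHom (ZMod p)) P)
                - Polynomial.eval q.2 (Polynomial.map (Int.castRingHom (ZMod p)) P) ∈ A).card : ℝ) :=
  final (main pars coLe coSm muSum muNear muBd bohr good weilUV (equi inv) fibre
    (cost (tri inv) coSm muBd) tw) asym

end Pool.Agent.Results.MP_29cad5_co.LogPowerDensity
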